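import Pool.Agent.Helper40_COV.Final8

/-!
# MP_160b6c_nt: torsion of Jacobians in algebraic families of genus 2 curves
-/

namespace Pool.Agent.Results.MP_160b6c_nt.AlmostAllGenusTwo

open Polynomial NumberField

/-! ### sextics -/

/-- The polynomial `a 0 x^6 + a 1 x^5 + a 2 x^4 + a 3 x^3 + a 4 x^2 + a 5 x + a 6`. -/
noncomputable def sextic {R : Type} [CommRing R] (a : Fin 7 → R) : R[X] :=
  C (a 0) * X ^ 6 + C (a 1) * X ^ 5 + C (a 2) * X ^ 4 + C (a 3) * X ^ 3 + C (a 4) * X ^ 2 +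
    C (a 5) * X + C (a 6)

/-- The complex polynomial `F` has a double root, no root of multiplicity three or more, and a simple
root. -/
def DoubleNotTriple (F : ℂ[X]) : Prop :=
  (∃ z : ℂ, (X - C z) ^ 2 ∣ F) ∧ (∀ z : ℂ, ¬ (X - C z) ^ 3 ∣ F) ∧
    ∃ z : ℂ, (X - C z) ∣ F ∧ ¬ (X - C z) ^ 2 ∣ F

/-- The coefficient of `u ^ j` in `F(α + u)`, `F = sextic a`. -/
noncomputable def tc {R : Type} [CommRing R] (a : Fin 7 → R) (α : R) (j : ℕ) : R :=
  (taylor α (sextic a)).coeff j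

/-- The monic quintic `f` such that `y² = f(x)` is the curve `y² = F(x)`, `F = sextic a`, with its
Weierstrass point `(α, 0)` at infinity, `F(α) = 0`: the curves are isomorphic by
`F(α + a_0^4 F'(α) / x) x^6 = (a_0^2 F'(α))^2 f(x)`, see `oddModel_spec`. -/
noncomputable def oddModel {R : Type} [CommRing R] (a : Fin 7 → R) (α : R) : R[X] :=
  X ^ 5 + C (tc a α 2 * a 0 ^ 4) * X ^ 4 + C (tc a α 3 * tc a α 1 * a 0 ^ 8) * X ^ 3 +
    C (tc a α 4 * tc a α 1 ^ 2 * a 0 ^ 12) * X ^ 2 + C (tc a α 5 * tc a α 1 ^ 3 * a 0 ^ 16) * X +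
    C (tc a α 6 * tc a α 1 ^ 4 * a 0 ^ 20)

theorem sextic_eq {R : Type} [CommRing R] (a : Fin 7 → R) :
    sextic a = Pool.Agent.TTC.sext a := rfl

theorem sextic_natDegree_lt {R : Type} [CommRing R] (a : Fin 7 → R) :
    (sextic a).natDegree < 7 := by
  have h : (sextic a).natDegree ≤ 6 := by
    unfold sextic
    compute_degree
  omega

theorem oddModel_spec {K : Type} [Field K] (a : Fin 7 → K) (α : K) (hα : (sextic a).eval α = 0)
    (x : K) (hx : x ≠ 0) :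
    (sextic a).eval (α + a 0 ^ 4 * (derivative (sextic a)).eval α / x) * x ^ 6 =
      (a 0 ^ 2 * (derivative (sextic a)).eval α) ^ 2 * (oddModel a α).eval x := by
  have h0 : tc a α 0 = 0 := by rw [tc, taylor_coeff_zero, hα]
  have h1 : (derivative (sextic a)).eval α = tc a α 1 := by rw [tc, taylor_coeff_one]
  have h2 : ∀ u : K, (sextic a).eval (α + u) = ∑ j ∈ Finset.range 7, tc a α j * u ^ j := by
    intro u
    have h3 : (taylor α (sextic a)).eval u = (sextic a).eval (u + α) := by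
      rw [taylor_eval]
    rw [add_comm α u, ← h3]
    exact eval_eq_sum_range' (by rw [natDegree_taylor]; exact sextic_natDegree_lt a) u
  rw [h2, h1]
  simp only [Finset.sum_range_succ, Finset.sum_range_zero, h0, oddModel, eval_add, eval_mul,
    eval_pow, eval_X, eval_C]
  field_simp
  ring

/-- `F = sextic a` is squarefree of degree 6: the curve `y² = F(x)` has genus 2. -/
def GenusTwo {K₀ : Type} [Field K₀] (a : Fin 7 → 𝓞 K₀) : Prop :=
  (sextic fun i => ((a i : 𝓞 K₀) : K₀)).natDegree = 6 ∧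
  Squarefree (sextic fun i => ((a i : 𝓞 K₀) : K₀))

/-- For every number field `K` which contains `K₀`, of degree at most `d` over `ℚ`, in which `F = sextic a`
splits, every torsion point of the Jacobian over `K` of the curve `y² = F(x)` has order at most `B`. (The
Jacobian is taken from the model `y² = oddModel a α` of the curve, for some root `α` of `F`.) -/
def TorsionBounded {K₀ : Type} [Field K₀] (d B : ℕ) (a : Fin 7 → 𝓞 K₀) : Prop :=
  ∀ (K : Type) [Field K] [NumberField K] [Algebra K₀ K], Module.finrank ℚ K ≤ d →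
    (sextic fun i => algebraMap K₀ K ((a i : 𝓞 K₀) : K₀)).Splits →
    ∃ α : K, (sextic fun i => algebraMap K₀ K ((a i : 𝓞 K₀) : K₀)).eval α = 0 ∧
    ∀ Y : UBT.OddCurve K, Y.f = oddModel (fun i => algebraMap K₀ K ((a i : 𝓞 K₀) : K₀)) α →
    ∀ c : Y.Jac, IsOfFinOrder c → orderOf c ≤ B

/-- The complex curve `y² = F(x)` has a map of degree at most `n` to an elliptic curve
`w² = z (z - 1) (z - j)`, namely `z = P(x)/Q(x)`, `w = V(x) y/Q(x)²` with `P`, `Q` of degree at most `n`,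
`P/Q` not constant. -/
def MapsToElliptic (n : ℕ) (F : ℂ[X]) : Prop :=
  ∃ (j : ℂ) (P Q V : ℂ[X]), j ≠ 0 ∧ j ≠ 1 ∧ P.natDegree ≤ n ∧ Q.natDegree ≤ n ∧
    derivative P * Q - P * derivative Q ≠ 0 ∧ F * V ^ 2 = P * Q * (P - Q) * (P - C j * Q)

/-! ### proofs -/

theorem of_good {K₀ : Type} [Field K₀] {d B : ℕ} {a : Fin 7 → 𝓞 K₀}
    (h : Pool.Agent.COV.Good9 d B a) :
    GenusTwo a ∧ (TorsionBounded d B a ∨
      ∀ ψ : K₀ →+* ℂ, MapsToElliptic B (sextic fun i => ψ ((a i : 𝓞 K₀) : K₀))) := by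
  refine ⟨⟨h.1, h.2.1⟩, ?_⟩
  rcases h.2.2 with h1 | h1
  · exact Or.inr h1
  · exact Or.inl h1

theorem sq_dvd_iff (F : ℂ[X]) (z : ℂ) :
    (X - C z) ^ 2 ∣ F ↔ F.eval z = 0 ∧ (derivative F).eval z = 0 := by
  constructor
  · rintro ⟨G, rfl⟩
    constructor <;> simp [derivative_mul, derivative_pow]
  · rintro ⟨h1, h2⟩
    obtain ⟨G, hG⟩ := dvd_iff_isRoot.2 h1
    rw [hG] at h2
    simp only [derivative_mul, derivative_sub, derivative_X, derivative_C, sub_zero, one_mul,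
      eval_add, eval_mul, eval_sub, eval_X, eval_C, sub_self, zero_mul, add_zero] at h2
    obtain ⟨G', hG'⟩ := dvd_iff_isRoot.2 h2
    exact ⟨G', by rw [hG, hG']; ring⟩

theorem dns_of {F : ℂ[X]} (h : DoubleNotTriple F) : Pool.Agent.TTC.Dns F := by
  obtain ⟨⟨z, h1⟩, h2, w, h3, h3'⟩ := h
  refine ⟨?_, ⟨z, (sq_dvd_iff F z).1 h1⟩, ⟨w, dvd_iff_isRoot.1 h3, fun h5 =>
    h3' ((sq_dvd_iff F w).2 ⟨dvd_iff_isRoot.1 h3, h5⟩)⟩⟩
  rintro y ⟨h4, h5, h6⟩
  apply h2 y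
  obtain ⟨G, hG⟩ := (sq_dvd_iff F y).2 ⟨h4, h5⟩
  have h7 : derivative (derivative F) = 2 * G + (X - C y) * (4 * derivative G +
      (X - C y) * derivative (derivative G)) := by
    rw [hG]
    simp only [derivative_mul, derivative_pow, derivative_sub, derivative_X, derivative_C, sub_zero,
      mul_one, derivative_add]
    have e2 : (C (2 : ℂ) : ℂ[X]) = 2 := rfl
    simp
    rw [e2]
    ring
  rw [h7] at h6
  simp only [eval_add, eval_mul, eval_sub, eval_X, eval_C, sub_self, zero_mul, add_zero,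
    eval_ofNat] at h6
  have h8 : G.IsRoot y := by
    rcases mul_eq_zero.1 h6 with h | h
    · norm_num at h
    · exact h
  obtain ⟨G', hG'⟩ := dvd_iff_isRoot.2 h8
  exact ⟨G', by rw [hG, hG']; ring⟩

theorem cube_finite {m : ℕ} (T : Fin m → ℕ) : {t : Fin m → ℤ | ∀ i, |t i| ≤ (T i : ℤ)}.Finite := by
  have h1 : {t : Fin m → ℤ | ∀ i, |t i| ≤ (T i : ℤ)}
      ⊆ Set.pi Set.univ (fun i : Fin m => Set.Icc (-(T i : ℤ)) (T i : ℤ)) := by
    intro t ht i _
    exact abs_le.1 (ht i)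
  exact (Set.Finite.pi' fun i => Set.finite_Icc _ _).subset fun a ha i => h1 ha i (Set.mem_univ i)

/-- The fibre over `t ∈ ℂ^n` of the family `F`, at the embedding `ψ` of `K₀`. -/
noncomputable def fibre {K₀ : Type} [Field K₀] {n : ℕ}
    (F : Fin 7 → MvPolynomial (Fin n) (𝓞 K₀)) (ψ : K₀ →+* ℂ) (t : Fin n → ℂ) : ℂ[X] :=
  sextic fun i => MvPolynomial.eval₂ (ψ.comp (algebraMap (𝓞 K₀) K₀)) t (F i)

/-- The fibre over the integer point `t`: a tuple of seven elements of `𝓞 K₀`. -/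
noncomputable def at0 {K₀ : Type} [Field K₀] {n : ℕ} (F : Fin 7 → MvPolynomial (Fin n) (𝓞 K₀))
    (t : Fin n → ℤ) : Fin 7 → 𝓞 K₀ :=
  fun i => MvPolynomial.eval (fun l => ((t l : ℤ) : 𝓞 K₀)) (F i)

/-- **Torsion of the Jacobians in algebraic families of genus 2 curves over number fields.** -/
theorem result (d k m : ℕ) (δ : ℝ) (hδ : 0 < δ) :
    ∃ (B : ℕ) (C : ℝ),
    -- all number fields `K₀` of degree at most `d`, in which the coefficients lie
    ∀ (K₀ : Type) [Field K₀] [NumberField K₀], Module.finrank ℚ K₀ ≤ d →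
    -- all boxes `|t i| ≤ T i ≤ H`, `T i₀` the smallest side
    ∀ (H : ℕ) (T : Fin (m + 1) → ℕ) (i₀ : Fin (m + 1)),
      (∀ i, 1 ≤ T i ∧ T i ≤ H ∧ T i₀ ≤ T i) →
    -- all families `F_t = F 0 (t) x^6 + F 1 (t) x^5 + .. + F 6 (t)` over `𝓞 K₀` of total degree at most `k`
    -- in `t = (t 0, .., t m)`, conjugates of the coefficients at most `H`, with a squarefree complex fibre
    -- of degree 6 and a point `t` all of whose fibres (one for each embedding `ψ` of `K₀`) have degree 6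
    -- and are squarefree or have double roots, simple roots and no triple roots, the latter for some `ψ`
    ∀ F : Fin 7 → MvPolynomial (Fin (m + 1)) (𝓞 K₀),
      (∀ i, (F i).totalDegree ≤ k ∧
        ∀ (ψ : K₀ →+* ℂ) (l : Fin (m + 1) →₀ ℕ), ‖ψ (((F i).coeff l : 𝓞 K₀) : K₀)‖ ≤ (H : ℝ)) →
      (∃ (ψ : K₀ →+* ℂ) (t : Fin (m + 1) → ℂ), (fibre F ψ t).natDegree = 6 ∧
        Squarefree (fibre F ψ t)) →
      (∃ t : Fin (m + 1) → ℂ, (∀ ψ : K₀ →+* ℂ, (fibre F ψ t).natDegree = 6 ∧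
        (Squarefree (fibre F ψ t) ∨ DoubleNotTriple (fibre F ψ t))) ∧
        ∃ ψ : K₀ →+* ℂ, DoubleNotTriple (fibre F ψ t)) →
    -- outside a proportion of at most `C H ^ δ / T i₀` of the points of the box the torsion is bounded, or
    -- the curve has a map of degree at most `B` to an elliptic curve
      ({t : Fin (m + 1) → ℤ | (∀ i, |t i| ≤ (T i : ℤ)) ∧
        ¬ (GenusTwo (at0 F t) ∧ (TorsionBounded d B (at0 F t) ∨
          ∀ ψ : K₀ →+* ℂ, MapsToElliptic B (sextic fun i => ψ ((at0 F t i : 𝓞 K₀) : K₀))))}.ncard :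
          ℝ) * (T i₀ : ℝ) ≤ C * (H : ℝ) ^ δ * ∏ i, (T i : ℝ) ∧
    -- and the second case is not needed if `F 0, .., F 6` are algebraically independent
      (AlgebraicIndependent ℤ F →
        ({t : Fin (m + 1) → ℤ | (∀ i, |t i| ≤ (T i : ℤ)) ∧
          ¬ (GenusTwo (at0 F t) ∧ TorsionBounded d B (at0 F t))}.ncard : ℝ) * (T i₀ : ℝ)
          ≤ C * (H : ℝ) ^ δ * ∏ i, (T i : ℝ)) := by
  obtain ⟨B, C, hC, h'⟩ := Pool.Agent.COV.H40.muu d d k m δ hδ
  obtain ⟨M, hM'⟩ := Pool.Agent.COV.H40.gbu B k m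
  refine ⟨B, C + M, fun K₀ _ _ hK₀ H T i₀ hT F hF hsq ht => ?_⟩
  have h := h' K₀ (by rw [NumberField.Embeddings.card K₀ ℂ]; exact hK₀)
  have hM := hM' K₀
  have hfib : ∀ (ψ : K₀ →+* ℂ) (t : Fin (m + 1) → ℂ),
      fibre F ψ t = Pool.Agent.TTC.sext (Pool.Agent.COV.fib9 F ψ t) := fun _ _ => rfl
  have hnod : Pool.Agent.COV.Nodal9 F := by
    obtain ⟨ψ₁, t₁, h1, h2⟩ := hsq
    obtain ⟨t₀, h3, ψ₀, h4⟩ := ht
    rw [hfib] at h1 h2
    refine ⟨⟨ψ₁, t₁, (Pool.Agent.TTC.H40.sf6.2 (Pool.Agent.COV.fib9 F ψ₁ t₁) h1).2 h2⟩, t₀,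
      fun ψ => ?_, ψ₀, ?_⟩
    · obtain ⟨h5, h6⟩ := h3 ψ
      rw [hfib] at h5 h6
      have h7 := Pool.Agent.TTC.H40.sf6.2 (Pool.Agent.COV.fib9 F ψ t₀) h5
      refine ⟨h7.1, ?_⟩
      rcases h6 with h6 | h6
      · exact Or.inl (h7.2 h6)
      · exact Or.inr (dns_of h6)
    · have h5 := (h3 ψ₀).1
      rw [hfib] at h5 h4
      have h7 := Pool.Agent.TTC.H40.sf6.2 (Pool.Agent.COV.fib9 F ψ₀ t₀) h5
      exact (Pool.Agent.TTC.H40.cr7.2 (Pool.Agent.COV.fib9 F ψ₀ t₀) h7.1 (dns_of h4)).1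
  have h3 := h H F T i₀ hT hF hnod
  have hH : 1 ≤ H := (hT i₀).1.trans (hT i₀).2.1
  have hH1 : (1 : ℝ) ≤ (H : ℝ) := by exact_mod_cast hH
  have hHd : (1 : ℝ) ≤ (H : ℝ) ^ δ := Real.one_le_rpow hH1 hδ.le
  have hP0 : (0 : ℝ) ≤ ∏ i, (T i : ℝ) := Finset.prod_nonneg fun i _ => Nat.cast_nonneg _
  have hM0 : (0 : ℝ) ≤ (M : ℝ) := Nat.cast_nonneg _
  have hMle : (M : ℝ) * ∏ i, (T i : ℝ) ≤ M * (H : ℝ) ^ δ * ∏ i, (T i : ℝ) :=
    mul_le_mul_of_nonneg_right (le_mul_of_one_le_right hM0 hHd) hP0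
  have hMnn : (0 : ℝ) ≤ M * (H : ℝ) ^ δ * ∏ i, (T i : ℝ) := by positivity
  obtain ⟨S1, hS1⟩ : ∃ S1 : Set (Fin (m + 1) → ℤ), S1 = {t : Fin (m + 1) → ℤ |
      (∀ i, |t i| ≤ (T i : ℤ)) ∧ ¬ Pool.Agent.COV.Good9 d B (at0 F t)} := ⟨_, rfl⟩
  have h3' : (S1.ncard : ℝ) * (T i₀ : ℝ) ≤ C * (H : ℝ) ^ δ * ∏ i, (T i : ℝ) := by
    rw [hS1]
    exact h3
  have hfin1 : S1.Finite := by
    rw [hS1]
    exact (cube_finite T).subset fun a ha => ha.1
  constructor
  · refine le_trans (mul_le_mul_of_nonneg_right (Nat.cast_le.2 (Set.ncard_le_ncard ?_ hfin1))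
      (Nat.cast_nonneg _)) (h3'.trans ?_)
    · rintro t ⟨ht, hn⟩
      rw [hS1]
      exact ⟨ht, fun hg => hn (of_good hg)⟩
    · rw [add_mul, add_mul]
      linarith
  · intro hind
    obtain ⟨ψ, -⟩ := hsq
    have h4 := hM F T i₀ ψ (fun i => ⟨(hT i).1, (hT i).2.2⟩) (fun i => (hF i).1) hind
    obtain ⟨S2, hS2⟩ : ∃ S2 : Set (Fin (m + 1) → ℤ), S2 = {t : Fin (m + 1) → ℤ |
        (∀ i, |t i| ≤ (T i : ℤ)) ∧
        Pool.Agent.COV.Cov B (Pool.Agent.TTC.sext fun i => ψ ((at0 F t i : 𝓞 K₀) : K₀))} :=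
      ⟨_, rfl⟩
    have h4' : S2.ncard * T i₀ ≤ M * ∏ i, T i := by
      rw [hS2]
      exact h4
    have hfin2 : S2.Finite := by
      rw [hS2]
      exact (cube_finite T).subset fun a ha => ha.1
    have h5 : ((S2.ncard : ℝ)) * (T i₀ : ℝ) ≤ M * ∏ i, (T i : ℝ) := by exact_mod_cast h4'
    have h6 : ({t : Fin (m + 1) → ℤ | (∀ i, |t i| ≤ (T i : ℤ)) ∧
          ¬ (GenusTwo (at0 F t) ∧ TorsionBounded d B (at0 F t))}.ncard : ℝ) ≤
        (S1.ncard : ℝ) + (S2.ncard : ℝ) := by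
      have h7 := (Set.ncard_le_ncard (s := {t : Fin (m + 1) → ℤ | (∀ i, |t i| ≤ (T i : ℤ)) ∧
          ¬ (GenusTwo (at0 F t) ∧ TorsionBounded d B (at0 F t))}) (t := S1 ∪ S2) ?_
        (hfin1.union hfin2)).trans (Set.ncard_union_le S1 S2)
      · exact_mod_cast h7
      · rintro t ⟨ht, hn⟩
        by_cases hg : Pool.Agent.COV.Good9 d B (at0 F t)
        · right
          obtain ⟨h8, h9⟩ := of_good hg
          rcases h9 with h9 | h9
          · exact absurd ⟨h8, h9⟩ hn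
          · rw [hS2]
            exact ⟨ht, h9 ψ⟩
        · left
          rw [hS1]
          exact ⟨ht, hg⟩
    calc _ ≤ ((S1.ncard : ℝ) + (S2.ncard : ℝ)) * (T i₀ : ℝ) :=
          mul_le_mul_of_nonneg_right h6 (Nat.cast_nonneg _)
      _ ≤ _ := by
          rw [add_mul, add_mul, add_mul]
          linarith

end Pool.Agent.Results.MP_160b6c_nt.AlmostAllGenusTwo
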