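import Pool.Agent.Helper28_MNW.ASM

/-!
# Torsion points on hyperelliptic curves: an absolute number of pairs

Let `g ≥ 2` and `m = num g`: `12` for `g = 2`, `10` for `g = 3`, `9` for `g ≥ 4`. We consider
hyperelliptic curves `C : Y² = f(X)` of genus `g` over number fields, `f` squarefree of degree
`2 g + 1`, with base point at infinity.

* `HeightBound g m`: if `C` over `K` has `m` torsion points over `K` with different abscissae (not
  Weierstrass points), then the configuration consisting of the roots of `f` and the abscissae has
  relative height at most `exp (30 (4 g + 10)⁵) ^ [K : ℚ]`.
* `FinitelyMany g m`: for every `d` there are, up to affine maps, only finitely many such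
  configurations over number fields of degree at most `d`.
* `FinitelyManyCurves g m`: for every `d` there are, up to affine maps of the roots, only finitely many
  curves `C` over number fields `K` of degree at most `d` which have `m` such torsion points over
  the algebraic closure, or one torsion point whose abscissa (in the coordinate of any model over a
  subfield of `K`) has degree at least `m`; and the orders of all torsion elements of `J(K)` are
  bounded for them.
-/

namespace Pool.Agent.Results.MP_160b6c_nt.ManyTorsionPoints

open Pool.Agent.MNT Pool.Agent.MNW

theorem result (g : ℕ) (hg : 2 ≤ g) :
    HeightBound g (num g) ∧ FinitelyMany g (num g) ∧ FinitelyManyCurves g (num g) :=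
  MNW.All.final g hg

end Pool.Agent.Results.MP_160b6c_nt.ManyTorsionPoints
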