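import Pool.Agent.Helper40_ARC.Final

/-!
# MP_160b6c_nt: torsion and the Szpiro ratio for abelian varieties of every dimension
-/

namespace Pool.Agent.Results.MP_160b6c_nt.SzpiroAllDimensions

open scoped BigOperators

/-- The theta series with half-integral characteristic `theta[a/2, b/2](z, tau)`, `a, b` in
`(Z/2)^g` (represented by 0, 1):
the sum over `n` in `Z^g` of `exp(pi i (n+a/2).tau(n+a/2) + 2 pi i (n+a/2).(z+b/2))`. -/
noncomputable def theta {g : ℕ} (τ : Matrix (Fin g) (Fin g) ℂ) (a b : Fin g → ZMod 2)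
    (z : Fin g → ℂ) : ℂ :=
  ∑' n : Fin g → ℤ, Complex.exp
    (Real.pi * Complex.I *
        (∑ i, ∑ j, ((n i : ℂ) + (a i).val / 2) * τ i j * ((n j : ℂ) + (a j).val / 2)) +
      2 * Real.pi * Complex.I * ∑ i, ((n i : ℂ) + (a i).val / 2) * (z i + (b i).val / 2))

/-- `tau` is in the Siegel upper half space: symmetric, with positive definite imaginary part. -/
def Siegel {g : ℕ} (τ : Matrix (Fin g) (Fin g) ℂ) : Prop :=
  τ.transpose = τ ∧ (τ.map Complex.im).PosDef

/-- The period `p + tau q`. -/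
noncomputable def period {g : ℕ} (τ : Matrix (Fin g) (Fin g) ℂ) (p q : Fin g → ℤ) : Fin g → ℂ :=
  fun i => (p i : ℂ) + ∑ j, τ i j * (q j : ℂ)

/-- `w` lies in the period lattice `L = Z^g + tau Z^g`. -/
def InLattice {g : ℕ} (τ : Matrix (Fin g) (Fin g) ℂ) (w : Fin g → ℂ) : Prop :=
  ∃ p q : Fin g → ℤ, w = period τ p q

/-- `x` is the vector of the coordinates over `K` of the point `w` of the abelian variety `C^g / L`
in its projective embedding by the functions `theta[a/2, b/2](2w, tau)`. -/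
def IsPoint {K : Type} [Field K] {g : ℕ} (φ : K →+* ℂ) (τ : Matrix (Fin g) (Fin g) ℂ)
    (w : Fin g → ℂ) (x : (Fin g → ZMod 2) × (Fin g → ZMod 2) → K) : Prop :=
  x ≠ 0 ∧ ∃ μ : ℂ, ∀ ab, φ (x ab) = μ * theta τ ab.1 ab.2 (fun i => 2 * w i)

/-- The norm of a finite place: the number of elements of the residue field. -/
noncomputable def N {K : Type} [Field K] [NumberField K] (v : NumberField.FinitePlace K) : ℝ :=
  (Ideal.absNorm v.maximalIdeal.asIdeal : ℝ)

/-- The points of projective space with coordinates `x` and `y` have the same reduction modulo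
the finite place `v`: all `2 x 2` minors are smaller than `|x|_v |y|_v` (maximum norms). -/
def SameReduction {K ι : Type} [Field K] [NumberField K] (v : NumberField.FinitePlace K)
    (x y : ι → K) : Prop :=
  ∀ i j, v (x i * y j - x j * y i) < (⨆ l, v (x l)) * (⨆ l, v (y l))

/-- The points with coordinates `x` and `y` are congruent modulo `v ^ e`: all `2 x 2` minors are at
most `(N v)^(-e) |x|_v |y|_v`. -/
def Congruent {K ι : Type} [Field K] [NumberField K] (v : NumberField.FinitePlace K) (e : ℕ)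
    (x y : ι → K) : Prop :=
  ∀ i j, v (x i * y j - x j * y i) ≤ (N v ^ e)⁻¹ * ((⨆ l, v (x l)) * (⨆ l, v (y l)))

/-- `x` and `y` have a common coordinate of largest absolute value at `v`: the reductions of the two
points modulo `v` have a common nonzero coordinate. -/
def CommonCoordinate {K ι : Type} [Field K] [NumberField K] (v : NumberField.FinitePlace K)
    (x y : ι → K) : Prop :=
  ∃ i, v (x i) = (⨆ l, v (x l)) ∧ v (y i) = (⨆ l, v (y l))

/-- `F` is a theta function of order `k` for `C^g / L`: entire, with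
`F (x + p + tau q) = exp (-pi i k q.tau q - 2 pi i k q.x) F x`. -/
def IsTheta {g : ℕ} (τ : Matrix (Fin g) (Fin g) ℂ) (k : ℕ) (F : (Fin g → ℂ) → ℂ) : Prop :=
  Differentiable ℂ F ∧ ∀ (x : Fin g → ℂ) (p q : Fin g → ℤ),
    F (x + period τ p q) = Complex.exp (-(Real.pi * Complex.I * (k : ℂ)
        * ∑ i, ∑ j, (q i : ℂ) * τ i j * (q j : ℂ))
      - 2 * Real.pi * Complex.I * (k : ℂ) * ∑ i, (q i : ℂ) * x i) * F x

/-- The complex subspace `W` is the tangent space of an abelian subvariety of `C^g / L`: it is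
spanned over the real numbers by the periods in it. -/
def AbelianSubvariety {g : ℕ} (τ : Matrix (Fin g) (Fin g) ℂ) (W : Submodule ℂ (Fin g → ℂ)) :
    Prop :=
  ∀ w ∈ W, w ∈ Submodule.span ℝ {u : Fin g → ℂ | u ∈ W ∧ InLattice τ u}

/-- `W` is cut out at 0 by theta functions of order `k`: every vector which is killed by the
differentials at 0 of all theta functions of order `k` vanishing on `W` is in `W`. -/
def CutOut {g : ℕ} (τ : Matrix (Fin g) (Fin g) ℂ) (k : ℕ) (W : Submodule ℂ (Fin g → ℂ)) : Prop :=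
  ∀ v : Fin g → ℂ, (∀ F : (Fin g → ℂ) → ℂ, IsTheta τ k F →
    (∀ w ∈ W, F w = 0) → fderiv ℂ F 0 v = 0) → v ∈ W

/-- The square of the length of the vector `u` of `C^g` in the metric given by the principal
polarisation of `C^g / L`: `conj(u).(Im tau)^-1 u`. -/
noncomputable def lengthSq {g : ℕ} (τ : Matrix (Fin g) (Fin g) ℂ) (u : Fin g → ℂ) : ℝ :=
  (∑ i, ∑ j, (starRingEnd ℂ) (u i) * (((τ.map Complex.im)⁻¹ i j : ℝ) : ℂ) * u j).re

open Pool.Agent.THS in
theorem theta_eq {g : ℕ} (τ : Matrix (Fin g) (Fin g) ℂ) (a b : Fin g → ZMod 2)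
    (w : Fin g → ℂ) : Vab τ a b w = theta τ a b (fun i => 2 * w i) := by
  unfold Vab theta ths tht hv
  refine tsum_congr fun n => ?_
  congr 1
  congr 1
  · congr 1
    refine Finset.sum_congr rfl fun i _ => Finset.sum_congr rfl fun j _ => ?_
    push_cast
    rfl
  · congr 1
    refine Finset.sum_congr rfl fun i _ => ?_
    push_cast
    ring

theorem inLattice_iff {g : ℕ} (τ : Matrix (Fin g) (Fin g) ℂ) (w : Fin g → ℂ) :
    InLattice τ w ↔ Pool.Agent.THS.InLat τ w := by
  constructor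
  · rintro ⟨p, q, rfl⟩
    exact ⟨p, q, fun i => rfl⟩
  · rintro ⟨p, q, h⟩
    exact ⟨p, q, funext h⟩

open Pool.Agent.ARC in
/-- **Torsion and the Szpiro ratio for abelian varieties of every dimension.** -/
theorem result (g : ℕ) (σ : ℝ) (G : ℕ → ℕ) :
    ∃ l : ℕ, l.Prime ∧ Odd l ∧ ∀ c d : ℕ, 0 < c → ∃ B : ℕ,
    ∀ (K : Type) [Field K] [NumberField K], Module.finrank ℚ K ≤ d →
    ∀ (φ : K →+* ℂ) (τ : Matrix (Fin g) (Fin g) ℂ), Siegel τ →
    -- a torsion point `z` of the abelian variety `C^g / L`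
    ∀ z : Fin g → ℂ, (∃ n : ℕ, 0 < n ∧ InLattice τ (n • z)) →
    ∀ (S T : Finset (NumberField.FinitePlace K)) (e t m : NumberField.FinitePlace K → ℕ)
      (F : Finset (NumberField.InfinitePlace K))
      (τ' : NumberField.InfinitePlace K → Matrix (Fin g) (Fin g) ℂ)
      (c' : NumberField.InfinitePlace K → (ℤ × (Fin g → ℤ) × (Fin g → ℤ) →+ (Fin g → ℂ)))
      (u : NumberField.InfinitePlace K → Fin g → ℂ)
      (x : ℤ → (Fin g → ℤ) → (Fin g → ℤ) → (Fin g → ZMod 2) × (Fin g → ZMod 2) → K),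
    -- the points `k z + (p + tau q)/l` are rational over `K` (if `S` and `F` are empty: only the
    -- points `k z`)
    (∀ (k : ℤ) (p q : Fin g → ℤ), (S.Nonempty ∨ F.Nonempty) ∨ (p = 0 ∧ q = 0) →
      IsPoint φ τ (fun i => (k : ℂ) * z i + period τ p q i / (l : ℂ)) (x k p q)) →
    -- `v` in `T`: all multiples of `c z` have the same reduction as the origin
    (∀ v ∈ T, v 2 = 1 ∧ ∀ k : ℤ, SameReduction v (x (c * k) 0 0) (x 0 0 0)) →
    -- `v` in `S`: the multiples of `m z` and the origin have a common nonzero coordinate modulo `v`,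
    -- and the multiples of some division point of order `l` are congruent to the origin mod `v ^ e`
    (∀ v ∈ S, v 2 = 1 ∧ 1 ≤ e v ∧ 1 ≤ t v ∧ 1 ≤ m v ∧ m v ≤ G (t v) ∧
      (∀ k : ℤ, CommonCoordinate v (x (m v * k) 0 0) (x 0 0 0)) ∧
      ∃ p q : Fin g → ℤ, (∃ i, ¬ (l : ℤ) ∣ p i ∨ ¬ (l : ℤ) ∣ q i) ∧
        ∀ u : ℤ, Congruent v (e v) (x 0 (u • p) (u • q)) (x 0 0 0)) →
    -- `w` in `F`: at the infinite place `w` the same coordinates are those of the points
    -- `c' w (k, p, q)` of the abelian variety with period matrix `τ' w`; `u w` is a nonzero period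
    (∀ w ∈ F, Siegel (τ' w) ∧ (∃ n : ℕ, 0 < n ∧ ∀ i, InLattice (τ' w) (n • c' w i)) ∧
      (∀ (k : ℤ) (p q : Fin g → ℤ), IsPoint w.embedding (τ' w) (c' w (k, p, q)) (x k p q)) ∧
      InLattice (τ' w) (u w) ∧ u w ≠ 0) →
    -- the height of the origin is bounded by these places
    Real.log (Height.mulHeight (x 0 0 0)) ≤
      σ * (∑ v ∈ T, Real.log (N v) + ∑ v ∈ S, (e v : ℝ) / (t v : ℝ) * Real.log (N v)
        + ∑ w ∈ F, 1 / lengthSq (τ' w) (u w)) →
    -- the order of `z` is at most `B`, or a multiple `M z`, `M <= B`, is in an abelian subvariety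
    -- of bounded degree
    (∃ M : ℕ, 1 ≤ M ∧ M ≤ B ∧ InLattice τ (M • z)) ∨
    ((S.Nonempty ∨ F.Nonempty) ∧
      ∃ W : Submodule ℂ (Fin g → ℂ), W ≠ ⊥ ∧ W ≠ ⊤ ∧ AbelianSubvariety τ W ∧
      (∃ M : ℕ, 1 ≤ M ∧ M ≤ B ∧ ∃ u ∈ W, InLattice τ (M • z - u)) ∧
      ∃ k : ℕ, 1 ≤ k ∧ k ≤ B ∧ CutOut τ k W) := by
  obtain ⟨l, hl, hodd, h1⟩ := H40.final g σ G
  refine ⟨l, hl, hodd, fun c d hc => ?_⟩
  obtain ⟨B, hB⟩ := h1 c d hc
  refine ⟨B, ?_⟩
  intro K _ _ hd φ τ hτ z hz S T e t m F τ' c' u x hx hT hS hF hH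
  have hsm : ∀ n : ℕ, (n • z) = fun i => (n : ℂ) * z i := fun n => by
    funext i
    rw [Pi.smul_apply, nsmul_eq_mul]
  classical
  have hP : ∀ w : NumberField.InfinitePlace K, ∃ P Q : Fin g → ℤ,
      w ∈ F → u w = period (τ' w) P Q := fun w => by
    by_cases hw : w ∈ F
    · obtain ⟨P, Q, h⟩ := (hF w hw).2.2.2.1
      exact ⟨P, Q, fun _ => h⟩
    · exact ⟨0, 0, fun h => absurd h hw⟩
  choose P Q hPQ using hP
  have h2 := hB K hd φ τ hτ z (by
      obtain ⟨n, hn, h⟩ := hz
      refine ⟨n, hn, ?_⟩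
      rw [← hsm n]
      exact (inLattice_iff τ _).1 h)
    S T e t m (fun i => x i.1 i.2.1 i.2.2) F τ' (fun w i => c' w i) P Q
    (fun w => 1 / lengthSq (τ' w) (u w))
    (fun i hi => by
      have h3 := hx i.1 i.2.1 i.2.2 (hi.imp id fun h => ⟨congrArg Prod.fst h, congrArg Prod.snd h⟩)
      refine ⟨h3.1, ?_⟩
      obtain ⟨μ, hμ⟩ := h3.2
      refine ⟨μ, fun ab => ?_⟩
      rw [theta_eq]
      exact hμ ab)
    (fun v hv => ⟨(hT v hv).1, fun k => (hT v hv).2 k⟩)
    (fun v hv => by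
      obtain ⟨h3, h4, h4', h4'', h4''', h5, p, q, h6, h7⟩ := hS v hv
      refine ⟨h3, h4, h4', h4'', h4''', fun k => h5 k, p, q, h6, fun u => ?_⟩
      have h8 := h7 u
      have h9 : (u • ((0, p, q) : Pool.Agent.SZG.Idx g)) = ((0, u • p, u • q) :
          Pool.Agent.SZG.Idx g) := by
        refine Prod.ext ?_ rfl
        show u • (0 : ℤ) = 0
        exact smul_zero u
      rw [h9]
      exact h8)
    (fun w hw => by
      obtain ⟨h3, ⟨n, hn, h4⟩, h5, h6, h7⟩ := hF w hw
      have h8 := hPQ w hw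
      refine ⟨⟨h3, fun i j r => ?_, ⟨n, hn, fun i => ?_⟩, fun i => ?_⟩, ?_, ?_, ?_⟩
      · show c' w (i + j) r = c' w i r + c' w j r
        rw [map_add]
        rfl
      · have h9 := (inLattice_iff (τ' w) _).1 (h4 i)
        have h10 : (fun r => (n : ℂ) * c' w i r) = n • c' w i := by
          funext r
          rw [Pi.smul_apply, nsmul_eq_mul]
        rw [h10]
        exact h9
      · obtain ⟨μ, hμ⟩ := (h5 i.1 i.2.1 i.2.2).2
        refine ⟨μ, fun ab => ?_⟩
        rw [theta_eq]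
        exact hμ ab
      · rintro ⟨h9, h10⟩
        refine h7 ?_
        rw [h8, h9, h10]
        funext i
        simp [period]
      · exact one_div_nonneg.2 (H40.HY_nonneg (τ' w) h3 (u w))
      · have h9 : (HY (τ' w) (Pool.Agent.ZES.pr (τ' w) (P w) (Q w))
            (Pool.Agent.ZES.pr (τ' w) (P w) (Q w))).re = lengthSq (τ' w) (u w) := by
          rw [h8]
          rfl
        rw [h9]
        by_cases h10 : lengthSq (τ' w) (u w) = 0
        · rw [h10]
          norm_num
        · exact (one_div_mul_cancel h10).le)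
    hH
  rcases h2 with ⟨M, hM1, hM2, hM3⟩ | ⟨hSn, W, hW1, hW2, hW3, ⟨M, hM1, hM2, u, hu, hM3⟩, k, hk1,
    hk2, hk3⟩
  · left
    refine ⟨M, hM1, hM2, ?_⟩
    rw [hsm M]
    exact (inLattice_iff τ _).2 hM3
  · right
    refine ⟨hSn, W, hW1, hW2, ?_, ⟨M, hM1, hM2, u, hu, (inLattice_iff τ _).2 hM3⟩, k, hk1, hk2, ?_⟩
    · intro w hw
      have h10 : {u : Fin g → ℂ | u ∈ W ∧ InLattice τ u}
          = {u : Fin g → ℂ | u ∈ W ∧ Pool.Agent.THS.InLat τ u} := by
        ext u
        exact and_congr_right fun _ => inLattice_iff τ u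
      rw [h10]
      exact hW3 w hw
    · intro v hv
      exact hk3 v fun F hF hF0 => hv F hF hF0

end Pool.Agent.Results.MP_160b6c_nt.SzpiroAllDimensions
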