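import Pool.Agent.Helper18_KDD.FinalP
import Pool.Agent.Helper40_COV.Final6

/-!
# MP_160b6c_nt: torsion of genus 2 Jacobians is bounded by the Szpiro ratio
-/

namespace Pool.Agent.Results.MP_160b6c_nt.SzpiroRatioGenusTwo

open Polynomial NumberField

/-! ### places at which `f` has only simple and double roots -/

/-- The coefficients of `a` are integral at `v`. -/
def IntegralAt {K : Type} [Field K] [NumberField K] (v : FinitePlace K) (a : K[X]) : Prop :=
  ∀ n, v (a.coeff n) ≤ 1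

/-- `a` is congruent to `b` modulo `v`. -/
def CongrMod {K : Type} [Field K] [NumberField K] (v : FinitePlace K) (a b : K[X]) : Prop :=
  ∀ n, v ((a - b).coeff n) < 1

/-- `a f + b f' + c f''` -/
noncomputable def comb {K : Type} [Field K] (f a b c : K[X]) : K[X] :=
  a * f + b * derivative f + c * derivative (derivative f)

/-- The finite place `v` of `K` does not divide 2, divides the discriminant of `f`, and `f` has only
simple and double roots modulo `v`: there are polynomials `a`, `b`, `c` with `v`-integral coefficients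
such that `a f + b f' + c f''` is congruent to 1 modulo `v`. -/
def DoubleRootPlace {K : Type} [Field K] [NumberField K] (v : FinitePlace K) (f : K[X]) : Prop :=
  v 2 = 1 ∧ v (discr f) < 1 ∧ ∃ a b c : K[X], IntegralAt v a ∧ IntegralAt v b ∧ IntegralAt v c ∧
    CongrMod v (comb f a b c) 1

/-! ### the height -/

/-- The largest distance of two complex roots of `F`. -/
noncomputable def spread (F : ℂ[X]) : ℝ :=
  sSup {r : ℝ | ∃ a b : ℂ, F.IsRoot a ∧ F.IsRoot b ∧ r = ‖a - b‖}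

/-- `log H(f)`, where `H(f)` is the product of the spreads of `f` over all embeddings `K -> ℂ`. -/
noncomputable def logH {K : Type} [Field K] [NumberField K] (f : K[X]) : ℝ :=
  ∑ v : InfinitePlace K, (v.mult : ℝ) * Real.log (spread (f.map v.embedding))

/-! ### classes -/

/-- The nonzero ideals of a Dedekind domain. -/
def NonzeroIdeal (R : Type) [CommRing R] [IsDedekindDomain R] : Type :=
  nonZeroDivisors (Ideal R)

/-- The ideal. -/
def NonzeroIdeal.ideal {R : Type} [CommRing R] [IsDedekindDomain R] (J : NonzeroIdeal R) :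
    Ideal R :=
  J.1

noncomputable instance {R : Type} [CommRing R] [IsDedekindDomain R] : Monoid (NonzeroIdeal R) :=
  inferInstanceAs (Monoid (nonZeroDivisors (Ideal R)))

/-- The homomorphism `J ↦ [J]` to the class group. -/
noncomputable def NonzeroIdeal.hom (R : Type) [CommRing R] [IsDedekindDomain R] :
    NonzeroIdeal R →* ClassGroup R :=
  ClassGroup.mk0

/-- The class of a nonzero ideal. -/
noncomputable def NonzeroIdeal.cls {R : Type} [CommRing R] [IsDedekindDomain R]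
    (J : NonzeroIdeal R) : ClassGroup R :=
  NonzeroIdeal.hom R J

/-- The ideal `(A, y - C)` of the coordinate ring `F[x, y]/(y² - f)`. -/
noncomputable def mumfordIdeal {F : Type} [Field F] (f A C : F[X]) : Ideal (H58Q.Q F f) :=
  Ideal.span {(⟨A, 0⟩ : H58Q.Q F f), ⟨-C, 1⟩}

/-- `(A, C)` is a Mumford pair and `c` is the class of the ideal `(A, y - C)`. -/
def IsMumfordClass {F : Type} [Field F] (Y : UBT.OddCurve F) (A C : F[X]) (c : Y.Jac) : Prop :=
  A.Monic ∧ C.degree < A.degree ∧ A ∣ C ^ 2 - Y.f ∧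
    ∃ (_ : IsDedekindDomain (H58Q.Q F Y.f)) (J : NonzeroIdeal (H58Q.Q F Y.f)),
      J.ideal = mumfordIdeal Y.f A C ∧ J.cls = c

/-- `c'` in `J(F)` is the image of `c` in `J(K)` under the embedding `φ : K → F`: for some Mumford
pair `(A, C)` over `K`, `c` is the class of `(A, y - C)`, and `c'` is the class of this ideal with
`φ` applied to the coefficients of `A`, `C`. -/
def IsImage {K F : Type} [Field K] [Field F] (φ : K →+* F) (Y : UBT.OddCurve K)
    (Z : UBT.OddCurve F) (c : Y.Jac) (c' : Z.Jac) : Prop :=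
  ∃ A C : K[X], A.natDegree ≤ 2 ∧ IsMumfordClass Y A C c ∧
    IsMumfordClass Z (A.map φ) (C.map φ) c'

/-! ### thin subgroups -/

/-- `Ψ(x₁ + x₂, x₁ x₂) = 0` for all elements `[(x₁, y₁) + (x₂, y₂) - 2∞]` of `Γ`. Such an element
is the class of the ideal `(A, y - C)` with `A = (x - x₁)(x - x₂)`, `C(x_i) = y_i`, `deg C < 2`,
`A ∣ C² - f`. -/
def LiesOn {F : Type} [Field F] (Y : UBT.OddCurve F) (Γ : Subgroup Y.Jac)
    (Ψ : MvPolynomial (Fin 2) F) : Prop :=
  ∀ A C : F[X], A.natDegree = 2 → ∀ c ∈ Γ, IsMumfordClass Y A C c →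
    MvPolynomial.eval ![-A.coeff 1, A.coeff 0] Ψ = 0

/-- `Γ` is a thin subgroup of degree at most `B`: it is infinite and lies on a curve of degree at most
`B`, i.e. `Ψ(x₁ + x₂, x₁ x₂) = 0` on `Γ` with a polynomial `Ψ ≠ 0` of degree at most `B`. -/
def Thin {F : Type} [Field F] (B : ℕ) (Y : UBT.OddCurve F) (Γ : Subgroup Y.Jac) : Prop :=
  Infinite Γ ∧ ∃ Ψ : MvPolynomial (Fin 2) F, Ψ ≠ 0 ∧ Ψ.totalDegree ≤ B ∧ LiesOn Y Γ Ψ

/-- Over some algebraically closed field `F` which contains `K`, the image of `c` lies in a thin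
subgroup of degree at most `B`. -/
def InThin {K : Type} [Field K] (B : ℕ) (Y : UBT.OddCurve K) (c : Y.Jac) : Prop :=
  ∃ (F : Type) (_ : Field F) (_ : IsAlgClosed F) (φ : K →+* F) (Z : UBT.OddCurve F)
    (Γ : Subgroup Z.Jac) (c' : Z.Jac), Z.f = Y.f.map φ ∧ Thin B Z Γ ∧
      IsImage φ Y Z c c' ∧ c' ∈ Γ

theorem place_of {K : Type} [Field K] [NumberField K] {f : K[X]} (hint : ∀ n, IsIntegral ℤ (f.coeff n))
    {v : FinitePlace K} (h : DoubleRootPlace v f) :
    Pool.Agent.KDD.CubeFree v.val f ∧ v (discr f) < 1 := by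
  obtain ⟨h2, hD, a, b, c, ha, hb, hc, hcong⟩ := h
  refine ⟨⟨h2, fun n => ?_, a, b, c, fun n => ⟨ha n, hb n, hc n⟩, hcong⟩, hD⟩
  obtain ⟨a, ha⟩ : ∃ a : 𝓞 K, algebraMap (𝓞 K) K a = f.coeff n := ⟨⟨_, hint n⟩, rfl⟩
  change v (f.coeff n) ≤ 1
  rw [← ha, ← FinitePlace.norm_embedding_eq]
  exact FinitePlace.norm_le_one K v.maximalIdeal a

/-! ### maps to elliptic curves -/

/-- Over an algebraic closure of `K` the curve `y² = f(x)` has a map of degree at most `n` to an elliptic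
curve `w² = z (z - 1) (z - j)`, namely `z = P(x)/Q(x)`, `w = V(x) y/Q(x)²` with `P`, `Q` of degree at most
`n`, `P/Q` not constant. -/
def MapsToElliptic {K : Type} [Field K] (n : ℕ) (f : K[X]) : Prop :=
  ∃ (j : AlgebraicClosure K) (P Q V : (AlgebraicClosure K)[X]), j ≠ 0 ∧ j ≠ 1 ∧
    P.natDegree ≤ n ∧ Q.natDegree ≤ n ∧ derivative P * Q - P * derivative Q ≠ 0 ∧
    f.map (algebraMap K (AlgebraicClosure K)) * V ^ 2 = P * Q * (P - Q) * (P - C j * Q)

theorem szpiro_thin (d : ℕ) (ε : ℝ) (hε : 0 < ε) : ∃ B : ℕ,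
    ∀ (K : Type) [Field K] [NumberField K], Module.finrank ℚ K ≤ d →
    ∀ Y : UBT.OddCurve K, Y.f.Monic → Y.f.natDegree = 5 → (∀ n, IsIntegral ℤ (Y.f.coeff n)) →
    ∀ S : Finset (FinitePlace K), (∀ v ∈ S, DoubleRootPlace v Y.f) →
    ε * logH Y.f ≤ ∑ v ∈ S, Real.log (Ideal.absNorm v.maximalIdeal.asIdeal) →
    ∀ c : Y.Jac, IsOfFinOrder c → orderOf c ≤ B ∨ ∃ M : ℕ, 0 < M ∧ M ≤ B ∧ InThin B Y (c ^ M) := by
  obtain ⟨B, hB⟩ := Pool.Agent.KDD.H18.finalP d ε hε
  refine ⟨B, ?_⟩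
  intro K _ _ hd Y hm hdeg hint S hS hH c hc
  have key := hB K hd Y hm hdeg hint S (fun v hv => ?_) hH c hc
  · rcases key with h | ⟨M, hM0, hM, h⟩
    · exact Or.inl h
    · refine Or.inr ⟨M, hM0, hM, ?_⟩
      obtain ⟨F, i1, i2, φ, Z, j1, j2, Γ, Ψ, h1, h2, h3, h4, h5, A, C, h6, h7, h8, h9, h10, h11⟩ := h
      have h8' := Pool.Agent.KDT.H89.mum_map φ h8
      rw [← h1] at h8'
      refine ⟨F, i1, i2, φ, Z, Γ, _, h1, ⟨h2, Ψ, h3, h4, ?_⟩, ⟨A, C, h9, ⟨h8.monic, h8.deg, h8.dvd,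
        j1, ⟨_, h6⟩, rfl, h10⟩, ⟨h8'.monic, h8'.deg, h8'.dvd, j2, ⟨_, h7⟩, rfl, rfl⟩⟩, h11⟩
      intro A' C' hA2 c' hc' hcls
      obtain ⟨hA, hdeg', hdvd, _, J, hJ, hJc⟩ := hcls
      obtain ⟨J, hJ0⟩ := J
      have hJ' : J = Pool.Agent.SZT.MI Z.f A' C' := hJ
      subst hJ'
      refine h5 A' C' hJ0 ⟨hA, hdeg', hdvd⟩ hA2 ?_
      have hJc' : ClassGroup.mk0 ⟨Pool.Agent.SZT.MI Z.f A' C', hJ0⟩ = c' := hJc
      rw [hJc']
      exact hc'
  · obtain ⟨h2, hD, a, b, c, ha, hb, hc, hcong⟩ := hS v hv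
    refine ⟨⟨h2, fun n => ?_, a, b, c, fun n => ⟨ha n, hb n, hc n⟩, hcong⟩, hD⟩
    obtain ⟨a, ha⟩ : ∃ a : 𝓞 K, algebraMap (𝓞 K) K a = Y.f.coeff n := ⟨⟨_, hint n⟩, rfl⟩
    change v (Y.f.coeff n) ≤ 1
    rw [← ha, ← FinitePlace.norm_embedding_eq]
    exact FinitePlace.norm_le_one K v.maximalIdeal a

/-- **Torsion of genus 2 Jacobians is bounded by the Szpiro ratio.** -/
theorem result (d : ℕ) (ε : ℝ) (hε : 0 < ε) : ∃ B : ℕ,
    ∀ (K : Type) [Field K] [NumberField K], Module.finrank ℚ K ≤ d →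
    -- a curve `Y : y² = f(x)`, `f` monic of degree 5 with coefficients in the ring of integers
    ∀ Y : UBT.OddCurve K, Y.f.Monic → Y.f.natDegree = 5 → (∀ n, IsIntegral ℤ (Y.f.coeff n)) →
    -- a finite set of places of bad reduction without triple roots, with `R ≥ H ^ ε`
    ∀ S : Finset (FinitePlace K), (∀ v ∈ S, DoubleRootPlace v Y.f) →
    ε * logH Y.f ≤ ∑ v ∈ S, Real.log (Ideal.absNorm v.maximalIdeal.asIdeal) →
    -- a torsion point has order at most `B`, or the curve maps to an elliptic curve with degree at most `B`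
    -- and a multiple `M c`, `1 ≤ M ≤ B`, is in a thin subgroup
    ∀ c : Y.Jac, IsOfFinOrder c → orderOf c ≤ B ∨
      MapsToElliptic B Y.f ∧ ∃ M : ℕ, 0 < M ∧ M ≤ B ∧ InThin B Y (c ^ M) := by
  obtain ⟨B₁, h1⟩ := szpiro_thin d ε hε
  obtain ⟨B₂, h2⟩ := Pool.Agent.COV.H40.kdc d ε hε
  refine ⟨max B₁ B₂, ?_⟩
  intro K _ _ hd Y hm hdeg hint S hS hH c hc
  rcases h1 K hd Y hm hdeg hint S hS hH c hc with h | ⟨M, hM0, hM, F, i1, i2, φ, Z, Γ, c', a1, a2, a3, a4⟩
  · exact Or.inl (h.trans (le_max_left _ _))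
  rcases h2 K hd Y hm hdeg hint S (fun v hv => place_of hint (hS v hv)) hH c hc with h | h
  · exact Or.inl (h.trans (le_max_right _ _))
  refine Or.inr ⟨?_, M, hM0, hM.trans (le_max_left _ _), F, i1, i2, φ, Z, Γ, c', a1, ?_, a3, a4⟩
  · obtain ⟨j, P, Q, V, b0, b1, b2, b3, b4, b5⟩ := h
    exact ⟨j, P, Q, V, b0, b1, b2.trans (le_max_right _ _), b3.trans (le_max_right _ _), b4, b5⟩
  · obtain ⟨b1, Ψ, b2, b3, b4⟩ := a2
    exact ⟨b1, Ψ, b2, b3.trans (le_max_left _ _), b4⟩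

end Pool.Agent.Results.MP_160b6c_nt.SzpiroRatioGenusTwo
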